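import Pool.Agent.helper57.LQ.SpecA

/-!
# lq:FUN: triangularity of the powers of a generator
-/

set_option autoImplicit false

open Finset PowerSeries

noncomputable section

namespace Pool.Agent.LQ

theorem FUN_zmod {a b : ZMod 2} (h : a ≠ b) : a + 1 = b := by
  revert a b
  decide

theorem FUN_lt {g : FF} (h0 : coeff 0 g = 0) {n i : ℕ} (h : n < i) : coeff n (g ^ i) = 0 := by
  have h1 : (X : FF) ∣ g := by
    rw [PowerSeries.X_dvd_iff, ← PowerSeries.coeff_zero_eq_constantCoeff_apply]
    exact h0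
  exact PowerSeries.X_pow_dvd_iff.1 (pow_dvd_pow_of_dvd h1 i) n h

theorem FUN_eq {g : FF} (h0 : coeff 0 g = 0) (h1 : coeff 1 g = 1) (i : ℕ) : coeff i (g ^ i) = 1 := by
  have h2 : (X : FF) ∣ g := by
    rw [PowerSeries.X_dvd_iff, ← PowerSeries.coeff_zero_eq_constantCoeff_apply]
    exact h0
  obtain ⟨h, rfl⟩ := h2
  have h3 : constantCoeff h = 1 := by
    have h4 := PowerSeries.coeff_succ_X_mul 0 h
    rw [← PowerSeries.coeff_zero_eq_constantCoeff_apply, ← h4]
    exact h1
  rw [mul_pow]
  have h5 := PowerSeries.coeff_X_pow_mul (h ^ i) i 0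
  rw [Nat.zero_add] at h5
  rw [h5, PowerSeries.coeff_zero_eq_constantCoeff_apply, map_pow, h3, one_pow]

theorem FUN_five (N : ℕ) (g : FF) (i : ℕ) (f : FF) (hf : f ∈ VV N g (i + 1)) :
    f ∈ VV N g i ∨ (i.Coprime N ∧ f + g ^ i ∈ VV N g i) := by
  unfold VV at hf
  induction hf using Submodule.span_induction with
  | mem x hx =>
    obtain ⟨j, hj, hN, rfl⟩ := hx
    rcases Nat.lt_succ_iff_lt_or_eq.1 hj with h | h
    · exact Or.inl (Submodule.subset_span ⟨j, h, hN, rfl⟩)
    · subst h
      refine Or.inr ⟨hN, ?_⟩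
      rw [add_self_FF]
      exact Submodule.zero_mem _
  | zero => exact Or.inl (Submodule.zero_mem _)
  | add x y _ _ hx hy =>
    rcases hx with hx | ⟨hN, hx⟩
    · rcases hy with hy | ⟨hN, hy⟩
      · exact Or.inl (Submodule.add_mem _ hx hy)
      · refine Or.inr ⟨hN, ?_⟩
        rw [add_assoc]
        exact Submodule.add_mem _ hx hy
    · rcases hy with hy | ⟨-, hy⟩
      · refine Or.inr ⟨hN, ?_⟩
        have e : x + y + g ^ i = (x + g ^ i) + y := by ring
        rw [e]
        exact Submodule.add_mem _ hx hy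
      · refine Or.inl ?_
        have e : x + y = (x + g ^ i) + (y + g ^ i) := by
          have e1 : (x + g ^ i) + (y + g ^ i) = x + y + (g ^ i + g ^ i) := by ring
          rw [e1, add_self_FF, add_zero]
        rw [e]
        exact Submodule.add_mem _ hx hy
  | smul c x _ hx =>
    have hc : c = 0 ∨ c = 1 := by
      revert c
      decide
    rcases hc with rfl | rfl
    · rw [zero_smul]
      exact Or.inl (Submodule.zero_mem _)
    · rw [one_smul]
      exact hx

theorem FUN_one (N : ℕ) (g : FF) (hg : Gen N g) :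
    ∀ K : ℕ, ∀ f ∈ VV N g K, (∀ n : ℕ, n < K → n.Coprime N → coeff n f = 0) → f = 0 := by
  intro K
  induction K with
  | zero =>
    intro f hf _
    have h : {f : FF | ∃ i : ℕ, i < 0 ∧ i.Coprime N ∧ f = g ^ i} = ∅ := by
      ext f
      simp
    unfold VV at hf
    rw [h, Submodule.span_empty] at hf
    exact (Submodule.mem_bot _).1 hf
  | succ K ih =>
    intro f hf h
    rcases FUN_five N g K f hf with h1 | ⟨hN, h1⟩
    · exact ih f h1 fun n hn hc => h n (Nat.lt_succ_of_lt hn) hc
    · have h2 := ih (f + g ^ K) h1 fun n hn hc => by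
        rw [map_add, h n (Nat.lt_succ_of_lt hn) hc, FUN_lt hg.c0 hn, add_zero]
      have h3 : coeff K (f + g ^ K) = 0 := by rw [h2, map_zero]
      rw [map_add, h K (Nat.lt_succ_self K) hN, FUN_eq hg.c0 hg.c1, zero_add] at h3
      exact absurd h3 one_ne_zero

theorem FUN_two (N : ℕ) (g : FF) (hg : Gen N g) (c : ℕ → ZMod 2) :
    ∀ K : ℕ, ∃ h ∈ VV N g K, ∀ n : ℕ, n < K → n.Coprime N → coeff n h = c n := by
  intro K
  induction K with
  | zero => exact ⟨0, Submodule.zero_mem _, fun n hn => absurd hn (Nat.not_lt_zero n)⟩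
  | succ K ih =>
    obtain ⟨h, hV, hh⟩ := ih
    by_cases hc : K.Coprime N ∧ coeff K h ≠ c K
    · refine ⟨h + g ^ K, Submodule.add_mem _ (VV_mono N g (Nat.le_succ K) hV)
        (Submodule.subset_span ⟨K, Nat.lt_succ_self K, hc.1, rfl⟩), fun n hn hN => ?_⟩
      rcases Nat.lt_succ_iff_lt_or_eq.1 hn with h1 | h1
      · rw [map_add, hh n h1 hN, FUN_lt hg.c0 h1, add_zero]
      · subst h1
        rw [map_add, FUN_eq hg.c0 hg.c1]
        exact FUN_zmod hc.2
    · refine ⟨h, VV_mono N g (Nat.le_succ K) hV, fun n hn hN => ?_⟩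
      rcases Nat.lt_succ_iff_lt_or_eq.1 hn with h1 | h1
      · exact hh n h1 hN
      · subst h1
        by_contra hne
        exact hc ⟨hN, hne⟩

theorem FUN_three (N : ℕ) (g : FF) (hg : Gen N g) (K : ℕ) (φ : FF →ₗ[ZMod 2] ZMod 2) :
    ∀ j : ℕ, ∃ S : Finset ℕ, (∀ n ∈ S, n < K ∧ n.Coprime N ∧ K ≤ n + j) ∧
      ∀ i : ℕ, i < K → i.Coprime N → K ≤ i + j → φ (g ^ i) = ∑ n ∈ S, coeff n (g ^ i) := by
  intro j
  induction j with
  | zero => exact ⟨∅, fun n hn => absurd hn (Finset.notMem_empty n), fun i hi _ h => by omega⟩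
  | succ j ih =>
    obtain ⟨S, hS, hφ⟩ := ih
    by_cases hj : j + 1 ≤ K
    swap
    · refine ⟨S, fun n hn => ⟨(hS n hn).1, (hS n hn).2.1, by have := (hS n hn).2.2; omega⟩, fun i hi hN _ => hφ i hi hN (by omega)⟩
    obtain ⟨a, rfl⟩ : ∃ a, K = a + (j + 1) := ⟨K - (j + 1), by omega⟩
    by_cases hc : a.Coprime N ∧ φ (g ^ a) ≠ ∑ n ∈ S, coeff n (g ^ a)
    · have haS : a ∉ S := fun h => by
        have := (hS a h).2.2
        omega
      refine ⟨insert a S, fun n hn => ?_, fun i hi hN hij => ?_⟩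
      · rcases Finset.mem_insert.1 hn with h | h
        · subst h
          exact ⟨by omega, hc.1, by omega⟩
        · exact ⟨(hS n h).1, (hS n h).2.1, by have := (hS n h).2.2; omega⟩
      · rw [Finset.sum_insert haS]
        rcases Nat.lt_or_ge a i with h | h
        · rw [FUN_lt hg.c0 h, zero_add]
          exact hφ i hi hN (by omega)
        · have h1 : i = a := by omega
          subst h1
          rw [FUN_eq hg.c0 hg.c1, add_comm]
          exact (FUN_zmod (Ne.symm hc.2)).symm
    · refine ⟨S, fun n hn => ⟨(hS n hn).1, (hS n hn).2.1, by have := (hS n hn).2.2; omega⟩, fun i hi hN hij => ?_⟩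
      rcases Nat.lt_or_ge a i with h | h
      · exact hφ i hi hN (by omega)
      · have h1 : i = a := by omega
        subst h1
        by_contra hne
        exact hc ⟨hN, hne⟩

theorem FUN : FUN_stmt := by
  intro N g hg
  refine ⟨FUN_one N g hg, fun K c => FUN_two N g hg c K, fun K φ => ?_, fun i hi hmem => ?_, FUN_five N g⟩
  · obtain ⟨S, hS, hφ⟩ := FUN_three N g hg K φ K
    refine ⟨S, fun n hn => ⟨(hS n hn).1, (hS n hn).2.1⟩, fun f hf => ?_⟩
    unfold VV at hf
    induction hf using Submodule.span_induction with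
    | mem x hx =>
      obtain ⟨i, hi, hN, rfl⟩ := hx
      exact hφ i hi hN (Nat.le_add_left K i)
    | zero =>
      rw [map_zero]
      exact (Finset.sum_eq_zero fun n _ => map_zero _).symm
    | add x y _ _ hx hy =>
      rw [map_add, hx, hy, ← Finset.sum_add_distrib]
      exact Finset.sum_congr rfl fun n _ => (map_add _ _ _).symm
    | smul c x _ hx =>
      rw [map_smul, hx, smul_eq_mul, Finset.mul_sum]
      exact Finset.sum_congr rfl fun n _ => by rw [map_smul, smul_eq_mul]
  · have h := FUN_one N g hg i (g ^ i) hmem fun n hn _ => FUN_lt hg.c0 hn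
    have h1 := FUN_eq hg.c0 hg.c1 i
    rw [h, map_zero] at h1
    exact zero_ne_one h1

end Pool.Agent.LQ
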